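import Pool.Agent.H75.PT.Targets
import Pool.Agent.H70.PT.Asm

/-!
# De Mol's tag system S₂ on products of many random blocks: the length (LLA)
-/

set_option autoImplicit false

open List Finset Pool.Agent.H68.TG Pool.Agent.H75.RW Pool.Agent.H70.PT Pool.Agent.H75.PT

namespace Pool.Agent.H60.BWP

lemma NN_mono_bd {r m : ℕ} {p p' : (Fin r → ℕ) → (Fin r → ℕ) → Prop}
    (h : ∀ X Y, (∀ i, X i < 2 ^ m) → (∀ i, Y i < 2 ^ m) → p X Y → p' X Y) :
    NN r m p ≤ NN r m p' := by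
  unfold NN
  exact_mod_cast Set.ncard_le_ncard
    (fun (q : (Fin r → Fin (2 ^ m)) × (Fin r → Fin (2 ^ m))) hq =>
      h _ _ (fun i => (q.1 i).2) (fun i => (q.2 i).2) hq) (Set.toFinite _)

lemma NN_markov {r m : ℕ} (F : (Fin r → ℕ) → (Fin r → ℕ) → ℝ) (hF : ∀ X Y, 0 ≤ F X Y)
    (c : ℝ) (hc : 0 < c) : NN r m (fun X Y => c < F X Y) ≤ SS r m F / c := by
  classical
  rw [le_div_iff₀ hc]
  unfold NN Pool.Agent.H70.PT.SS
  rw [← Fintype.sum_prod_type'
    (fun (X : Fin r → Fin (2 ^ m)) (Y : Fin r → Fin (2 ^ m)) => F (fun i => X i) (fun i => Y i))]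
  have h1 : ({q : (Fin r → Fin (2 ^ m)) × (Fin r → Fin (2 ^ m)) |
      c < F (fun i => q.1 i) (fun i => q.2 i)}.ncard : ℕ) =
      (Finset.univ.filter fun q : (Fin r → Fin (2 ^ m)) × (Fin r → Fin (2 ^ m)) =>
        c < F (fun i => q.1 i) (fun i => q.2 i)).card := by
    rw [← Set.ncard_coe_finset]
    congr 1
    ext q
    simp
  rw [h1]
  calc ((Finset.univ.filter fun q : (Fin r → Fin (2 ^ m)) × (Fin r → Fin (2 ^ m)) =>
        c < F (fun i => q.1 i) (fun i => q.2 i)).card : ℝ) * c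
      = ∑ _q ∈ Finset.univ.filter fun q : (Fin r → Fin (2 ^ m)) × (Fin r → Fin (2 ^ m)) =>
        c < F (fun i => q.1 i) (fun i => q.2 i), c := by
        rw [Finset.sum_const, nsmul_eq_mul]
    _ ≤ ∑ q ∈ Finset.univ.filter fun q : (Fin r → Fin (2 ^ m)) × (Fin r → Fin (2 ^ m)) =>
        c < F (fun i => q.1 i) (fun i => q.2 i), F (fun i => q.1 i) (fun i => q.2 i) := by
        refine Finset.sum_le_sum fun q hq => ?_
        exact (Finset.mem_filter.mp hq).2.le
    _ ≤ ∑ q : (Fin r → Fin (2 ^ m)) × (Fin r → Fin (2 ^ m)),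
        F (fun i => q.1 i) (fun i => q.2 i) := by
        refine Finset.sum_le_sum_of_subset_of_nonneg (Finset.filter_subset _ _) ?_
        intro q _ _
        exact hF _ _

lemma SS_sum {r m : ℕ} (G : Fin r → (Fin r → ℕ) → (Fin r → ℕ) → ℝ) (s : ℝ)
    (h : ∀ i, SS r m (G i) = s) : SS r m (fun X Y => ∑ i, G i X Y) = r * s := by
  have : SS r m (fun X Y => ∑ i, G i X Y) = ∑ i, SS r m (G i) := by
    unfold Pool.Agent.H70.PT.SS
    rw [Finset.sum_comm (s := (Finset.univ : Finset (Fin r)))]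
    exact Finset.sum_congr rfl fun X _ => Finset.sum_comm
  rw [this, Finset.sum_congr rfl fun i _ => h i]
  simp

lemma cw_nonneg (t : ℕ) (A : ℝ) (j : ℕ) : 0 ≤ cw t A j := by
  unfold cw
  split_ifs
  · exact le_rfl
  · positivity

theorem pf_LLA (CHE : T_CHE) (MEA : T_MEA) (TAI : T_TAI) (DEC : T_DEC) :
    Pool.Agent.H75.PT.T_LLA := by
  intro r t m A e htm hr hA he hcw h2t
  have hr1 : (1 : ℝ) ≤ r := by exact_mod_cast hr
  have hr0 : (0 : ℝ) < r := by linarith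
  obtain ⟨hT1, hT2, hT3, hT4, -, -⟩ := TAI t A 1 hA one_pos
  obtain ⟨hC1, hC2⟩ := CHE r t m A e htm hr hA he
  have hS : ∀ F : ℕ → ℝ, (∀ j, 0 ≤ F j) → ∀ c : ℝ, 0 < c →
      NN r m (fun X Y => c < ∑ i, F (PP t (false, X, Y) i)) ≤
        r * ((4 ^ m) ^ r * bm t F) / c ∧
      NN r m (fun X Y => c < ∑ i, F (QQ t (false, X, Y) i)) ≤
        r * ((4 ^ m) ^ r * bm t F) / c := by
    intro F hF c hc
    constructor
    · have := NN_markov (r := r) (m := m) (fun X Y => ∑ i, F (PP t (false, X, Y) i))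
        (fun X Y => Finset.sum_nonneg fun i _ => hF _) c hc
      rwa [SS_sum (fun i X Y => F (PP t (false, X, Y) i)) _
        (fun i => (MEA r t m i F htm).1)] at this
    · have := NN_markov (r := r) (m := m) (fun X Y => ∑ i, F (QQ t (false, X, Y) i))
        (fun X Y => Finset.sum_nonneg fun i _ => hF _) c hc
      rwa [SS_sum (fun i X Y => F (QQ t (false, X, Y) i)) _
        (fun i => (MEA r t m i F htm).2)] at this
  obtain ⟨h3, h4⟩ := hS (cw t A) (cw_nonneg t A) (e * r) (by positivity)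
  obtain ⟨h5, h6⟩ := hS (fun j => 3 ^ j) (fun j => by positivity) (e * r * 2 ^ m) (by positivity)
  rw [hT1] at h5 h6
  have hmain : NN r m (fun X Y => 18 * e * r * 2 ^ m < |(LL (ru t X Y) : ℝ) - LL (false, X, Y)|) ≤
      NN r m (fun X Y => (e * r * 2 ^ m < |s1 t A X Y| ∨ e * r * 2 ^ m < |s2 t A X Y|) ∨
        ((e * r < ∑ i, cw t A (PP t (false, X, Y) i) ∨
          e * r < ∑ i, cw t A (QQ t (false, X, Y) i)) ∨
        (e * r * 2 ^ m < ∑ i, (3 : ℝ) ^ (PP t (false, X, Y) i) ∨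
          e * r * 2 ^ m < ∑ i, (3 : ℝ) ^ (QQ t (false, X, Y) i)))) := by
    refine NN_mono_bd fun X Y hX hY h => ?_
    by_contra hcon
    push Not at hcon
    obtain ⟨⟨c1, c2⟩, ⟨c3, c4⟩, c5, c6⟩ := hcon
    have hD := DEC r t m A X Y htm hX hY hT2 hT4
    rw [Finset.sum_add_distrib, Finset.sum_add_distrib, ← Finset.mul_sum, ← Finset.mul_sum,
      ← Finset.mul_sum] at hD
    have hp : (0 : ℝ) < 2 ^ m := by positivity
    have k1 : (2 : ℝ) ^ m * (∑ i, cw t A (PP t (false, X, Y) i) +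
        2 * ∑ i, cw t A (QQ t (false, X, Y) i)) ≤ 3 * (e * r * 2 ^ m) := by
      nlinarith
    have k2 : 3 * r * 2 ^ m * bm t (cw t A) ≤ 3 * (e * r * 2 ^ m) := by
      have : 3 * r * 2 ^ m * bm t (cw t A) ≤ 3 * r * 2 ^ m * e :=
        mul_le_mul_of_nonneg_left hcw (by positivity)
      linarith
    have k3 : 3 * r * (2 : ℝ) ^ t ≤ 3 * (e * r * 2 ^ m) := by
      have : 3 * r * (2 : ℝ) ^ t ≤ 3 * r * (e * 2 ^ m) :=
        mul_le_mul_of_nonneg_left h2t (by positivity)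
      linarith
    linarith
  refine hmain.trans ?_
  refine (NN_or _ _).trans ?_
  refine (add_le_add (NN_or _ _) ((NN_or _ _).trans (add_le_add (NN_or _ _) (NN_or _ _)))).trans ?_
  refine (add_le_add (add_le_add hC1 hC2) (add_le_add (add_le_add h3 h4) (add_le_add h5 h6))).trans
    (le_of_eq ?_)
  field_simp
  ring

end Pool.Agent.H60.BWP
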