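import Pool.Agent.H75.PT.Targets
import Pool.Agent.H70.PT.Asm

/-!
# De Mol's tag system S₂ on products of many random blocks: all numbers of passes (LLB)
-/

set_option autoImplicit false

open List Finset Pool.Agent.H68.TG Pool.Agent.H75.RW Pool.Agent.H70.PT Pool.Agent.H75.PT

namespace Pool.Agent.H60.BWP

lemma NN_exists {r m : ℕ} (n : ℕ) (p : ℕ → (Fin r → ℕ) → (Fin r → ℕ) → Prop) (b : ℝ)
    (h : ∀ t ≤ n, NN r m (p t) ≤ b) :
    NN r m (fun X Y => ∃ t ≤ n, p t X Y) ≤ (n + 1) * b := by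
  induction n with
  | zero =>
    have h1 : NN r m (fun X Y => ∃ t ≤ 0, p t X Y) ≤ NN r m (p 0) := by
      refine NN_mono fun X Y hX => ?_
      obtain ⟨t, ht, hp⟩ := hX
      have : t = 0 := by omega
      rwa [this] at hp
    have h2 := h 0 le_rfl
    push_cast
    linarith
  | succ n ih =>
    have h1 : NN r m (fun X Y => ∃ t ≤ n + 1, p t X Y) ≤
        NN r m (fun X Y => (∃ t ≤ n, p t X Y) ∨ p (n + 1) X Y) := by
      refine NN_mono fun X Y hX => ?_
      obtain ⟨t, ht, hp⟩ := hX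
      rcases Nat.lt_or_ge n t with h' | h'
      · have : t = n + 1 := by omega
        rw [this] at hp
        exact Or.inr hp
      · exact Or.inl ⟨t, h', hp⟩
    have h2 := NN_or (r := r) (m := m) (fun X Y => ∃ t ≤ n, p t X Y) (p (n + 1))
    have h3 := ih fun t ht => h t (by omega)
    have h4 := h (n + 1) le_rfl
    push_cast
    linarith

/-- a linear function is smaller than an exponential one -/
lemma lin_exp (d K : ℝ) (hd : 0 < d) (hK : 0 < K) : ∃ n₀ : ℕ, ∀ n : ℕ, n₀ ≤ n →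
    ((n : ℝ) + 1) * K ≤ 2 ^ (d / 2 * n) := by
  have hb : (1 : ℝ) < 2 ^ (d / 2) := Real.one_lt_rpow (by norm_num) (by positivity)
  have h1 := (tendsto_pow_const_div_const_pow_of_one_lt 1 hb)
  have h2 : Filter.Tendsto (fun n : ℕ => (n : ℝ) ^ 1 / (2 ^ (d / 2) : ℝ) ^ n) Filter.atTop
    (nhds 0) := h1
  have h3 : ∀ᶠ n : ℕ in Filter.atTop, (n : ℝ) ^ 1 / (2 ^ (d / 2) : ℝ) ^ n < 1 / (2 * K) :=
    h2.eventually (gt_mem_nhds (by positivity))
  obtain ⟨n1, hn1⟩ := Filter.eventually_atTop.mp h3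
  refine ⟨max n1 1, fun n hn => ?_⟩
  have h4 := hn1 n ((le_max_left _ _).trans hn)
  have h5 : 1 ≤ n := (le_max_right _ _).trans hn
  have h6 : (1 : ℝ) ≤ n := by exact_mod_cast h5
  have h7 : (2 : ℝ) ^ (d / 2 * n) = (2 ^ (d / 2) : ℝ) ^ n := by
    rw [Real.rpow_mul (by norm_num), Real.rpow_natCast]
  rw [h7]
  rw [pow_one, div_lt_div_iff₀ (by positivity) (by positivity)] at h4
  nlinarith

theorem pf_LLB (LLA : Pool.Agent.H75.PT.T_LLA) (TAI : Pool.Agent.H75.PT.T_TAI)
    (RHO : Pool.Agent.H75.PT.T_RHO) (ENT : Pool.Agent.H70.PT.T_ENT) :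
    Pool.Agent.H75.PT.T_LLB := by
  intro g hg e he
  have hk0 : 0 ≤ ka (3 / 4) := by
    obtain ⟨h1, -, -, -, -, -, h2, -⟩ := ENT
    have := h2 ⟨le_rfl, by norm_num⟩ ⟨by norm_num, le_rfl⟩ (show (1 / 2 : ℝ) < 3 / 4 by norm_num)
    rw [h1] at this
    exact this.le
  obtain ⟨ρ, hρ, hρ1, hφ⟩ := RHO (g / 4) (by positivity)
  set k0 := ka (3 / 4) with hk0def
  set e' : ℝ := e / 18 with he'def
  have he' : 0 < e' := by positivity
  set d : ℝ := min (min e (g * ρ / 4)) (g / 2) with hd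
  have hd0 : 0 < d := by positivity
  have hd1 : d ≤ e := (min_le_left _ _).trans (min_le_left _ _)
  have hd2 : d ≤ g * ρ / 4 := (min_le_left _ _).trans (min_le_right _ _)
  have hd3 : d ≤ g / 2 := min_le_right _ _
  obtain ⟨n1, hn1⟩ := lin_exp d (4 / e' + 2 / e' ^ 2) hd0 (by positivity)
  obtain ⟨n2, hn2⟩ := lin_exp (2 * d) (1 / e') (by positivity) (by positivity)
  refine ⟨d / 2, by positivity, max (max n1 n2) 1, ?_⟩
  intro n hn m r hnm hr
  have hn1' := hn1 n ((le_max_left _ _).trans ((le_max_left _ _).trans hn))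
  have hn2' := hn2 n ((le_max_right _ _).trans ((le_max_left _ _).trans hn))
  have hn3 : 1 ≤ n := (le_max_right _ _).trans hn
  have hn3' : (1 : ℝ) ≤ n := by exact_mod_cast hn3
  have he1 : e < 1 := by
    by_contra hcon
    rw [not_lt] at hcon
    have : (1 - e) * (m : ℝ) ≤ 0 := mul_nonpos_of_nonpos_of_nonneg (by linarith) (by positivity)
    linarith
  have hmn : (n : ℝ) + e * n ≤ m := by
    have hm0 : (0 : ℝ) ≤ m := by positivity
    have : (n : ℝ) ≤ m := by nlinarith
    nlinarith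
  have hr1 : (1 : ℝ) ≤ r := by
    refine le_trans ?_ hr
    exact Real.one_le_rpow (by norm_num) (by positivity)
  have hr1' : 1 ≤ r := by exact_mod_cast hr1
  have hr0 : (0 : ℝ) < r := by linarith
  set A : ℝ := 2 ^ ((k0 + g / 2) * n) with hA
  have hA0 : 0 < A := by positivity
  set D : ℝ := 2 ^ (-(d * n)) with hD
  have hD0 : 0 < D := by positivity
  have hAr : A / r ≤ D := by
    rw [div_le_iff₀ hr0]
    calc A ≤ D * 2 ^ ((k0 + g) * n) := by
          rw [hA, hD, ← Real.rpow_add (by norm_num)]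
          refine Real.rpow_le_rpow_of_exponent_le (by norm_num) ?_
          nlinarith
      _ ≤ D * r := mul_le_mul_of_nonneg_left hr hD0.le
  have hDe : D ≤ e' := by
    have h1 : D * 2 ^ (2 * d / 2 * n) = 1 := by
      rw [hD, ← Real.rpow_add (by norm_num)]
      have : -(d * n) + 2 * d / 2 * n = 0 := by ring
      rw [this, Real.rpow_zero]
    have h2 : 1 / e' ≤ 2 ^ (2 * d / 2 * n) := by
      refine le_trans ?_ hn2'
      have : 0 < 1 / e' := by positivity
      nlinarith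
    have h3 : D * (1 / e') ≤ 1 := by
      have := mul_le_mul_of_nonneg_left h2 hD0.le
      rwa [h1] at this
    rw [mul_one_div, div_le_one he'] at h3
    exact h3
  have hstep : ∀ t ≤ n, NN r m (fun X Y => e * r * 2 ^ m < |(LL (ru t X Y) : ℝ) -
      LL (false, X, Y)|) ≤ ((4 / e' + 2 / e' ^ 2) * D) * (4 ^ m) ^ r := by
    intro t ht
    have htR : (t : ℝ) ≤ n := by exact_mod_cast ht
    have hbm0 : 0 ≤ bm t (cw t A) := (TAI t A ρ hA0 hρ).2.2.2.1
    have hbm : bm t (cw t A) ≤ D := by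
      have h1 := (TAI t A ρ hA0 hρ).2.2.2.2.2
      refine h1.trans ?_
      rw [div_le_iff₀ (by positivity)]
      have hφ0 : (0 : ℝ) ≤ ((1 / 2 : ℝ) ^ (1 + ρ) + (3 / 2) ^ (1 + ρ)) / 2 := by positivity
      calc (((1 / 2 : ℝ) ^ (1 + ρ) + (3 / 2) ^ (1 + ρ)) / 2) ^ t
          ≤ (2 ^ ((k0 + g / 4) * ρ)) ^ t := pow_le_pow_left₀ hφ0 hφ t
        _ = 2 ^ ((k0 + g / 4) * ρ * t) := by
            rw [← Real.rpow_natCast, ← Real.rpow_mul (by norm_num)]
        _ ≤ D * A ^ ρ := by
            rw [hD, hA, ← Real.rpow_mul (by norm_num), ← Real.rpow_add (by norm_num)]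
            refine Real.rpow_le_rpow_of_exponent_le (by norm_num) ?_
            have h3 : (k0 + g / 4) * ρ * t ≤ (k0 + g / 4) * ρ * n :=
              mul_le_mul_of_nonneg_left htR (by positivity)
            nlinarith
    have h2t : (2 : ℝ) ^ t ≤ D * 2 ^ m := by
      rw [hD, ← Real.rpow_natCast, ← Real.rpow_natCast, ← Real.rpow_add (by norm_num)]
      refine Real.rpow_le_rpow_of_exponent_le (by norm_num) ?_
      nlinarith
    have htm : t ≤ m := by
      have : (t : ℝ) ≤ m := by nlinarith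
      exact_mod_cast this
    have h2t' : (2 : ℝ) ^ t ≤ e' * 2 ^ m :=
      h2t.trans (mul_le_mul_of_nonneg_right hDe (by positivity))
    have h := LLA r t m A e' htm hr1' hA0 he' (hbm.trans hDe) h2t'
    have he18 : 18 * e' = e := by
      rw [he'def]
      ring
    rw [he18] at h
    refine h.trans ?_
    refine mul_le_mul_of_nonneg_right ?_ (by positivity)
    have k1 : 2 * 2 ^ t / (e' * 2 ^ m) ≤ 2 / e' * D := by
      rw [div_le_iff₀ (by positivity)]
      have : 2 / e' * D * (e' * 2 ^ m) = 2 * (D * 2 ^ m) := by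
        field_simp
      rw [this]
      linarith
    have k2 : 2 * bm t (cw t A) / e' ≤ 2 / e' * D := by
      rw [div_le_iff₀ he']
      have : 2 / e' * D * e' = 2 * D := by
        field_simp
      rw [this]
      linarith
    have k3 : 2 * A / (e' ^ 2 * r) ≤ 2 / e' ^ 2 * D := by
      have : 2 * A / (e' ^ 2 * r) = 2 / e' ^ 2 * (A / r) := by
        field_simp
      rw [this]
      exact mul_le_mul_of_nonneg_left hAr (by positivity)
    calc 2 * 2 ^ t / (e' * 2 ^ m) + 2 * bm t (cw t A) / e' + 2 * A / (e' ^ 2 * r)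
        ≤ 2 / e' * D + 2 / e' * D + 2 / e' ^ 2 * D := add_le_add (add_le_add k1 k2) k3
      _ = (4 / e' + 2 / e' ^ 2) * D := by ring
  have hex := NN_exists n (fun t X Y => e * r * 2 ^ m < |(LL (ru t X Y) : ℝ) -
      LL (false, X, Y)|) _ hstep
  refine hex.trans ?_
  rw [← mul_assoc]
  refine mul_le_mul_of_nonneg_right ?_ (by positivity)
  calc ((n : ℝ) + 1) * ((4 / e' + 2 / e' ^ 2) * D)
      = (((n : ℝ) + 1) * (4 / e' + 2 / e' ^ 2)) * D := by ring
    _ ≤ 2 ^ (d / 2 * n) * D := mul_le_mul_of_nonneg_right hn1' hD0.le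
    _ = 2 ^ (-(d / 2 * n)) := by
        rw [hD, ← Real.rpow_add (by norm_num)]
        congr 1
        ring

end Pool.Agent.H60.BWP
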