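import Pool.Agent.H75.PT.Targets

/-!
# De Mol's tag system S₂ on products of many random blocks: the variance (VRC)
-/

set_option autoImplicit false

open List Finset Pool.Agent.H68.TG Pool.Agent.H75.RW Pool.Agent.H70.PT Pool.Agent.H75.PT

namespace Pool.Agent.H60.BWP

lemma tot_add {r : ℕ} (f g : (Fin r → ℕ) → (Fin r → ℕ) → ℝ) (n : ℕ) (a : Bool)
    (P Q : Fin r → ℕ) :
    tot (fun P Q => f P Q + g P Q) n a P Q = tot f n a P Q + tot g n a P Q := by
  induction n generalizing a P Q with
  | zero => rfl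
  | succ n ih =>
    simp only [Pool.Agent.H70.PT.tot, ih, Finset.sum_add_distrib]

lemma tot_smul {r : ℕ} (c : ℝ) (f : (Fin r → ℕ) → (Fin r → ℕ) → ℝ) (n : ℕ) (a : Bool)
    (P Q : Fin r → ℕ) :
    tot (fun P Q => c * f P Q) n a P Q = c * tot f n a P Q := by
  induction n generalizing a P Q with
  | zero => rfl
  | succ n ih =>
    simp only [Pool.Agent.H70.PT.tot, ih, Finset.mul_sum]

lemma sum_choose_real (n : ℕ) : ∑ j ∈ Finset.range (n + 1), (n.choose j : ℝ) = 2 ^ n := by
  have := Nat.sum_range_choose n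
  exact_mod_cast this

lemma bm_center (n : ℕ) (U : ℕ → ℝ) :
    ∑ j ∈ Finset.range (n + 1), (n.choose j : ℝ) * (U j - bm n U) = 0 := by
  simp only [mul_sub, Finset.sum_sub_distrib, ← Finset.sum_mul, sum_choose_real]
  unfold bm
  field_simp
  ring

lemma bm_sq (n : ℕ) (U : ℕ → ℝ) :
    ∑ j ∈ Finset.range (n + 1), (n.choose j : ℝ) * (U j - bm n U) ^ 2 ≤
      2 ^ n * bm n (fun j => U j ^ 2) := by
  have h2 : ∑ j ∈ Finset.range (n + 1), (n.choose j : ℝ) * U j = 2 ^ n * bm n U := by
    unfold bm
    field_simp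
  have h3 : ∑ j ∈ Finset.range (n + 1), (n.choose j : ℝ) * U j ^ 2 =
      2 ^ n * bm n (fun j => U j ^ 2) := by
    unfold bm
    field_simp
  have h1 : ∑ j ∈ Finset.range (n + 1), (n.choose j : ℝ) * (U j - bm n U) ^ 2 =
      ∑ j ∈ Finset.range (n + 1), (n.choose j : ℝ) * U j ^ 2 -
        2 * bm n U * ∑ j ∈ Finset.range (n + 1), (n.choose j : ℝ) * U j +
        (bm n U) ^ 2 * ∑ j ∈ Finset.range (n + 1), (n.choose j : ℝ) := by
    rw [Finset.mul_sum, Finset.mul_sum, ← Finset.sum_sub_distrib, ← Finset.sum_add_distrib]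
    refine Finset.sum_congr rfl fun j _ => ?_
    ring
  rw [h1, h2, h3, sum_choose_real]
  have : (0 : ℝ) ≤ 2 ^ n * bm n U ^ 2 := by positivity
  nlinarith

lemma var_aux (r n : ℕ) (T : ((Fin r → ℕ) → ℝ) →ₗ[ℝ] ℝ)
    (hT : ∀ g : Fin r → ℕ → ℝ, T (fun P => ∏ i, g i (P i)) =
      (2 ^ r) ^ n * ∏ i, ∑ j ∈ Finset.range (n + 1), (n.choose j : ℝ) * g i j)
    (v : Fin r → ℝ) (B : ℝ) (U : ℕ → ℝ) (hv : ∀ i, |v i| ≤ B) :
    T (fun P => (∑ i, v i * (U (P i) - bm n U)) ^ 2) ≤
      (4 ^ r) ^ n * (r * B ^ 2 * bm n (fun j => U j ^ 2)) := by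
  set W : ℕ → ℝ := fun j => U j - bm n U with hW
  have hprod : ∀ i k : Fin r, T (fun P => W (P i) * W (P k)) =
      (2 ^ r) ^ n * ∏ l : Fin r, ∑ j ∈ Finset.range (n + 1), (n.choose j : ℝ) *
        ((if l = i then W j else 1) * (if l = k then W j else 1)) := by
    intro i k
    rw [← hT (fun l j => (if l = i then W j else 1) * (if l = k then W j else 1))]
    congr 1
    funext P
    rw [Finset.prod_mul_distrib, Finset.prod_ite_eq' Finset.univ i (fun l => W (P l)),
      Finset.prod_ite_eq' Finset.univ k (fun l => W (P l))]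
    simp
  have hoff : ∀ i k : Fin r, i ≠ k → T (fun P => W (P i) * W (P k)) = 0 := by
    intro i k hik
    rw [hprod i k, Finset.prod_eq_zero (Finset.mem_univ i), mul_zero]
    simp only [if_true, if_neg hik, mul_one]
    exact bm_center n U
  have hdiag : ∀ i : Fin r, T (fun P => W (P i) * W (P i)) ≤
      (4 ^ r) ^ n * bm n (fun j => U j ^ 2) := by
    intro i
    rw [hprod i i]
    have e : ∏ l : Fin r, ∑ j ∈ Finset.range (n + 1), (n.choose j : ℝ) *
        ((if l = i then W j else 1) * (if l = i then W j else 1)) =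
        ∏ l : Fin r, (2 ^ n * (if l = i then
          (∑ j ∈ Finset.range (n + 1), (n.choose j : ℝ) * W j ^ 2) / 2 ^ n else 1)) := by
      refine Finset.prod_congr rfl fun l _ => ?_
      by_cases h : l = i
      · simp only [h, if_true]
        rw [mul_div_cancel₀ _ (by positivity)]
        refine Finset.sum_congr rfl fun j _ => ?_
        ring
      · simp only [if_neg h, mul_one]
        exact sum_choose_real n
    rw [e, Finset.prod_mul_distrib, Finset.prod_ite_eq' Finset.univ i
      (fun _ => (∑ j ∈ Finset.range (n + 1), (n.choose j : ℝ) * W j ^ 2) / 2 ^ n)]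
    simp only [Finset.mem_univ, if_true, Finset.prod_const, Finset.card_univ, Fintype.card_fin]
    have h1 := bm_sq n U
    have h2 : (∑ j ∈ Finset.range (n + 1), (n.choose j : ℝ) * W j ^ 2) / 2 ^ n ≤
        bm n (fun j => U j ^ 2) := by
      rw [div_le_iff₀ (by positivity), mul_comm]
      exact h1
    have h3 : ((2 : ℝ) ^ r) ^ n * ((2 ^ n) ^ r) = (4 ^ r) ^ n := by
      rw [← pow_mul, ← pow_mul, ← pow_mul, mul_comm n r, ← mul_pow]
      norm_num
    calc ((2 : ℝ) ^ r) ^ n * ((2 ^ n) ^ r *
          ((∑ j ∈ Finset.range (n + 1), (n.choose j : ℝ) * W j ^ 2) / 2 ^ n))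
        = (4 ^ r) ^ n * ((∑ j ∈ Finset.range (n + 1), (n.choose j : ℝ) * W j ^ 2) / 2 ^ n) := by
          rw [← mul_assoc, h3]
      _ ≤ (4 ^ r) ^ n * bm n (fun j => U j ^ 2) := by
          exact mul_le_mul_of_nonneg_left h2 (by positivity)
  have hexp : (fun P : Fin r → ℕ => (∑ i, v i * (U (P i) - bm n U)) ^ 2) =
      ∑ i, ∑ k, (v i * v k) • (fun P : Fin r → ℕ => W (P i) * W (P k)) := by
    funext P
    simp only [Finset.sum_apply, Pi.smul_apply, smul_eq_mul]
    rw [sq, Finset.sum_mul_sum]
    refine Finset.sum_congr rfl fun i _ => Finset.sum_congr rfl fun k _ => ?_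
    simp only [hW]
    ring
  rw [hexp]
  simp only [map_sum, map_smul, smul_eq_mul]
  have hbm : 0 ≤ bm n (fun j => U j ^ 2) := by
    unfold bm
    positivity
  calc ∑ i, ∑ k, v i * v k * T (fun P => W (P i) * W (P k))
      = ∑ i, v i * v i * T (fun P => W (P i) * W (P i)) := by
        refine Finset.sum_congr rfl fun i _ => ?_
        rw [Finset.sum_eq_single i]
        · intro k _ hk
          rw [hoff i k (Ne.symm hk), mul_zero]
        · intro h
          exact absurd (Finset.mem_univ i) h
    _ ≤ ∑ _i : Fin r, B ^ 2 * ((4 ^ r) ^ n * bm n (fun j => U j ^ 2)) := by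
        refine Finset.sum_le_sum fun i _ => ?_
        have hB : v i * v i ≤ B ^ 2 := by
          have h1 := hv i
          have h2 := abs_nonneg (v i)
          have h3 : |v i| * |v i| = v i * v i := abs_mul_abs_self _
          nlinarith
        calc v i * v i * T (fun P => W (P i) * W (P i))
            ≤ v i * v i * ((4 ^ r) ^ n * bm n (fun j => U j ^ 2)) :=
              mul_le_mul_of_nonneg_left (hdiag i) (mul_self_nonneg _)
          _ ≤ B ^ 2 * ((4 ^ r) ^ n * bm n (fun j => U j ^ 2)) :=
              mul_le_mul_of_nonneg_right hB (by positivity)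
    _ = (4 ^ r) ^ n * (r * B ^ 2 * bm n (fun j => U j ^ 2)) := by
        simp only [Finset.sum_const, Finset.card_univ, Fintype.card_fin, nsmul_eq_mul]
        ring

theorem pf_VRC (TOB : Pool.Agent.H70.PT.T_TOB) (TOC : T_TOC) : Pool.Agent.H75.PT.T_VRC := by
  intro r n v B U hv
  constructor
  · have h := var_aux r n
      { toFun := fun f => tot (fun P _ => f P) n false (fun _ => 0) (fun _ => 0)
        map_add' := fun f g => tot_add (fun P _ => f P) (fun P _ => g P) n false _ _
        map_smul' := fun c f => tot_smul c (fun P _ => f P) n false _ _ }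
      (fun g => by
        have := TOC r n false (fun _ => 0) (fun _ => 0) g
        simp only [zero_add] at this
        exact this) v B U hv
    exact h
  · have h := var_aux r n
      { toFun := fun f => tot (fun _ Q => f Q) n false (fun _ => 0) (fun _ => 0)
        map_add' := fun f g => tot_add (fun _ Q => f Q) (fun _ Q => g Q) n false _ _
        map_smul' := fun c f => tot_smul c (fun _ Q => f Q) n false _ _ }
      (fun g => by
        have := TOB r n false (fun _ => 0) (fun _ => 0) g
        simp only [zero_add] at this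
        exact this) v B U hv
    exact h

end Pool.Agent.H60.BWP
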